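import Pool.Agent.H83.KGame

set_option autoImplicit false

namespace Pool.Agent.Results.MP_367a9a_gt.UndetOne

open Pool.Agent.H83

theorem result : ∃ (X : Type) (_ : TopologicalSpace X), T3Space X ∧
    ¬ KGame.P1WinsOne X ∧ ¬ KGame.P2WinsOne X :=
  ⟨Telg.X, inferInstance, inferInstance, KGame.not_p1One, KGame.not_p2One⟩

end Pool.Agent.Results.MP_367a9a_gt.UndetOne
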